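import Pool.Agent.U26.SG.Stm6
import Pool.Agent.Y265.RW.W2
import Pool.Agent.W924.RW.WP

/-!
# Project SG, part 6, package EN (helper571): the energy identity
-/

set_option autoImplicit false
open MeasureTheory Filter Topology Complex
open scoped ContDiff

namespace Pool.Agent.U571.SG

open Pool.Agent.W745.RW
open Pool.Agent.Y265.RW (Fam L2b step2_null natAbs_succ int_mulr)

noncomputable section

/-- the family of the iterated derivatives -/
def WF (h : ℕ → ℝ) (u : ℕ → ℂ → ℝ) (n : ℕ) (a : ℤ) (z : ℂ) : ℂ := W (h n) (u n) a z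

lemma famWF {B : Set ℂ} (hB : IsOpen B) {h : ℕ → ℝ} {u : ℕ → ℂ → ℝ}
    (hS : ∀ n, Sol B (h n) (u n)) : Fam B h (WF h u) := by
  refine ⟨fun n a => ?_, fun n a z hz => ?_, fun n a z hz => ?_, fun n a z hz => ?_⟩
  · exact (Pool.Agent.W924.RW.WP.main B hB (h n) (u n) (hS n)).1 a
  · exact (Pool.Agent.W924.RW.WP.main B hB (h n) (u n) (hS n)).2.1 a z hz
  · exact (Pool.Agent.W924.RW.WP.main B hB (h n) (u n) (hS n)).2.2.1 a z hz
  · exact (Pool.Agent.W924.RW.WP.main B hB (h n) (u n) (hS n)).2.2.2 a z hz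

lemma WF_zero (h : ℕ → ℝ) (u : ℕ → ℂ → ℝ) (n : ℕ) (z : ℂ) : WF h u n 0 z = (u n z : ℂ) := rfl

lemma WF_zero_sq (h : ℕ → ℝ) (u : ℕ → ℂ → ℝ) (n : ℕ) (z : ℂ) :
    ‖WF h u n 0 z‖ ^ 2 = u n z ^ 2 := by
  rw [WF_zero, Complex.norm_real, Real.norm_eq_abs, sq_abs]

lemma baseWF {B : Set ℂ} {h : ℕ → ℝ} {u : ℕ → ℂ → ℝ} {C : ℝ}
    (hi : ∀ n, IntegrableOn (fun z => u n z ^ 2) B) (hb : ∀ n, ∫ z in B, u n z ^ 2 ≤ C) :
    L2b B (WF h u) 0 := by
  intro K hK hKB
  refine ⟨C, Eventually.of_forall fun n => ?_⟩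
  simp only [WF_zero_sq]
  refine le_trans ?_ (hb n)
  exact setIntegral_mono_set (hi n) (Eventually.of_forall fun z => sq_nonneg _)
    (LE.le.eventuallyLE hKB)

/-- the energy identity -/
theorem core {B : Set ℂ} (hB : IsOpen B) {h : ℕ → ℝ} {u : ℕ → ℂ → ℝ} {C : ℝ}
    (hS : ∀ n, Sol B (h n) (u n)) (hlim : Tendsto h atTop (𝓝 0))
    (hi : ∀ n, IntegrableOn (fun z => u n z ^ 2) B) (hb : ∀ n, ∫ z in B, u n z ^ 2 ≤ C)
    {φ : ℂ → ℝ} (hφ : TF B φ) (a : ℤ) :
    Tendsto (fun n => (∫ z, φ z * ‖WF h u n a z‖ ^ 2) - ∫ z, φ z * u n z ^ 2) atTop (𝓝 0) := by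
  have hpos : ∀ n, 0 < h n := fun n => (hS n).hpos
  have hF := famWF hB hS
  have hL := L2b.all hB hpos hlim hF (baseWF (h := h) hi hb)
  have hmass : ∀ (n : ℕ) (a : ℤ), ((∫ z, φ z * ‖WF h u n a z‖ ^ 2 : ℝ) : ℂ) =
      (-1) ^ a.natAbs * ∫ z, (φ z : ℂ) * (WF h u n a z * WF h u n (-a) z) := by
    intro n a
    rw [← integral_const_mul, ← integral_complex_ofReal]
    refine integral_congr_ae (Eventually.of_forall fun z => ?_)
    simp only
    by_cases hz : z ∈ B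
    · have := Fam.nsq hF n a hz
      push_cast at this ⊢
      rw [this]
      ring
    · rw [Pool.Agent.Y265.RW.TF.zero hφ hz]
      simp
  have hstep : ∀ a : ℤ, Tendsto (fun n => (∫ z, φ z * ‖WF h u n (a + 1) z‖ ^ 2) -
      ∫ z, φ z * ‖WF h u n a z‖ ^ 2) atTop (𝓝 0) := by
    intro a
    have h1 := step2_null hB hpos hlim hF hF hL hL hφ a (-a - 1)
    have h2 : Tendsto (fun n => -((-1 : ℂ) ^ a.natAbs) *
        ((∫ z, (φ z : ℂ) * (WF h u n (a + 1) z * WF h u n (-a - 1) z)) +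
          ∫ z, (φ z : ℂ) * (WF h u n a z * WF h u n (-a - 1 + 1) z))) atTop (𝓝 0) := by
      have h3 := Tendsto.const_mul (-((-1 : ℂ) ^ a.natAbs)) h1
      rwa [mul_zero] at h3
    have h4 := (Complex.continuous_re.tendsto _).comp h2
    rw [Complex.zero_re] at h4
    refine h4.congr fun n => ?_
    have e1 := hmass n (a + 1)
    have e2 := hmass n a
    rw [natAbs_succ, show -(a + 1) = -a - 1 by ring] at e1
    have e3 : -((-1 : ℂ) ^ a.natAbs) *
        ((∫ z, (φ z : ℂ) * (WF h u n (a + 1) z * WF h u n (-a - 1) z)) +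
          ∫ z, (φ z : ℂ) * (WF h u n a z * WF h u n (-a - 1 + 1) z)) =
        (((∫ z, φ z * ‖WF h u n (a + 1) z‖ ^ 2) -
          ∫ z, φ z * ‖WF h u n a z‖ ^ 2 : ℝ) : ℂ) := by
      rw [show -a - 1 + 1 = -a by ring]
      push_cast at e1 e2 ⊢
      rw [e1, e2]
      ring
    simp only [Function.comp_apply]
    rw [e3, Complex.ofReal_re]
  induction a using Int.induction_on with
  | zero =>
    have : (fun n => (∫ z, φ z * ‖WF h u n 0 z‖ ^ 2) - ∫ z, φ z * u n z ^ 2) = fun _ => 0 := by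
      funext n
      simp only [WF_zero_sq, sub_self]
    rw [this]
    exact tendsto_const_nhds
  | succ i ih =>
    have h1 := (hstep i).add ih
    rw [add_zero] at h1
    refine h1.congr fun n => ?_
    ring
  | pred i ih =>
    have h1 := ih.sub (hstep (-i - 1))
    rw [sub_zero] at h1
    refine h1.congr fun n => ?_
    rw [show (-(i : ℤ) - 1 + 1) = -i by ring]
    ring

theorem t_EN : Pool.Agent.U26.SG.S_EN := by
  intro Ω h u C H φ hφ _ a ε hε
  have h1 := core H.op H.sol H.hlim H.int H.bd hφ a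
  have h2 := (Metric.tendsto_nhds.1 h1) ε hε
  filter_upwards [h2] with n hn
  rw [Real.dist_eq, sub_zero] at hn
  exact hn.le

end

end Pool.Agent.U571.SG
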